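import Pool.Agent.CZH.Final

/-!
# The hierarchy theorem for finitely generated subgroups of CAT(0) groups

Let `G` act geometrically on a CAT(0) space `X` (of any dimension) and let `φ : H → G` be an
injective homomorphism from a finitely generated group.  If `H` has a finite hierarchy over
subgroups that are cyclic or convex cocompact in `X` (it acts on a tree, the edge stabilizers are
cyclic or convex cocompact, and so are, after finitely many steps, the vertex stabilizers), then
`H` is a CAT(0) group.
-/

set_option autoImplicit false

namespace Pool.Agent.Results.MP_f09202_al.RelativeHierarchy

open CZH

universe u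

theorem result {G X : Type u} [Group G] [MetricSpace X] [MulAction G X] [Nonempty X]
    (hX : IsCAT0 X) (hG : IsGeometric G X) {H : Type u} [Group H] (hH : Group.FG H)
    (φ : H →* G) (hφ : Function.Injective φ) (n : ℕ) (hn : MHier X n H φ) : CAT0Group H :=
  cat0_of_mhier hX hG hH φ hφ n hn

end Pool.Agent.Results.MP_f09202_al.RelativeHierarchy
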