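import Pool.Agent.CZH.Final

/-!
# Finitely generated subgroups of CAT(0) free-by-cyclic groups with polynomial monodromy

Let `F` be a free group (of any rank) with basis `x_i`, let `ℓ` be an `ℕ`-valued level function on
the basis and let `φ` be an automorphism of `F` with `φ(x_i) = u_i x_(σ i)^(±1) v_i`, where `σ` is a
permutation of the basis preserving the levels and `u_i, v_i` are words in the basis elements of
strictly smaller level (a triangular automorphism; up to this normal form these are the
polynomially growing ones).  Then every finitely generated subgroup `H` of `F ⋊_φ ℤ` that embeds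
in some CAT(0) group is a CAT(0) group.  In particular, if `F ⋊_φ ℤ` is CAT(0) then all its
finitely generated subgroups are CAT(0).
-/

set_option autoImplicit false

namespace Pool.Agent.Results.MP_f09202_al.TriangularMonodromy

open CZH

universe u

theorem result {ι : Type u} (ℓ : ι → ℕ) (σ : Equiv.Perm ι) (hσ : ∀ i, ℓ (σ i) = ℓ i)
    (φ : MulAut (FreeGroup ι))
    (hφ : ∀ i, ∃ u ∈ Subgroup.closure {x : FreeGroup ι | ∃ j, ℓ j < ℓ i ∧ FreeGroup.of j = x},
      ∃ v ∈ Subgroup.closure {x : FreeGroup ι | ∃ j, ℓ j < ℓ i ∧ FreeGroup.of j = x},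
        φ (FreeGroup.of i) = u * FreeGroup.of (σ i) * v ∨
        φ (FreeGroup.of i) = u * (FreeGroup.of (σ i))⁻¹ * v)
    (H : Subgroup (FreeGroup ι ⋊[zpowersHom (MulAut (FreeGroup ι)) φ] (Multiplicative ℤ)))
    (hH : H.FG) (hG : ∃ (G : Type u) (_ : Group G), CAT0Group G ∧
      ∃ ψ : H →* G, Function.Injective ψ) :
    CAT0Group H := by
  obtain ⟨G, _, hG, ψ, hψ⟩ := hG
  exact cat0_of_triangular ℓ φ ⟨σ, hσ, hφ⟩ H hH hG ψ hψ

end Pool.Agent.Results.MP_f09202_al.TriangularMonodromy
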